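import Pool.Agent.helper70.GB.SpecN

/-!
# Project gb, module CA (helper21): induction step, case A, from TM
-/

open Matrix Polynomial

namespace GB

universe u

theorem CA_retract {A B : Type*} [CommRing A] [CommRing B] {n : ℕ} (f : A →+* B) (g : B →+* A)
    (h : ∀ x, f (g x) = x) (hA : AllComp n A) : AllComp n B := by
  intro v hv
  have h1 := (hA (fun i => g (v i)) (hv.map g)).map f
  simpa only [h] using h1

theorem CA_equiv {R : Type*} [CommRing R] {P Q : Type*} [AddCommMonoid P] [AddCommMonoid Q]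
    {n : ℕ} (e : P ≃+ Q) (h : AllComp n (AddMonoidAlgebra R P)) :
    AllComp n (AddMonoidAlgebra R Q) :=
  CA_retract (AddMonoidAlgebra.mapDomainRingEquiv R e : AddMonoidAlgebra R P ≃+* _).toRingHom
    (AddMonoidAlgebra.mapDomainRingEquiv R e : AddMonoidAlgebra R P ≃+* _).symm.toRingHom
    (fun x => (AddMonoidAlgebra.mapDomainRingEquiv R e).apply_symm_apply x) h

/-- the submonoid cut out by all the functionals is the positive part. -/
theorem CA_posPart {L : Type*} [AddCommGroup L] {s : ℕ} (a : Fin (s + 1) → L →+ ℤ)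
    (i : Fin (s + 1)) : posPart (Nmon (fun j => a (i.succAbove j))) (a i) = Nmon a := by
  ext m
  constructor
  · rintro ⟨h1, h2⟩ j
    rcases Fin.eq_self_or_eq_succAbove i j with rfl | ⟨k, rfl⟩
    · exact h2
    · exact h1 k
  · intro h
    exact ⟨fun k => h _, h i⟩

/-- the face is the monoid of the kernel. -/
def CA_face {L : Type*} [AddCommGroup L] {s : ℕ} (a : Fin (s + 1) → L →+ ℤ) (i : Fin (s + 1)) :
    Nmon (fun j => (a (i.succAbove j)).comp (a i).ker.subtype) ≃+
      zeroPart (Nmon (fun j => a (i.succAbove j))) (a i) where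
  toFun x := ⟨⟨x.1.1, fun j => x.2 j, le_of_eq ((AddMonoidHom.mem_ker).1 x.1.2).symm⟩,
    (AddMonoidHom.mem_ker).1 x.1.2⟩
  invFun y := ⟨⟨y.1.1, (AddMonoidHom.mem_ker).2 y.2⟩, fun j => y.1.2.1 j⟩
  left_inv _ := rfl
  right_inv _ := rfl
  map_add' _ _ := rfl

theorem CA (hTM : TM_stmt.{u}) : CA_stmt.{u} := by
  intro n hn R L _ _ s a i h1 h2
  have h3 : AllComp n (AddMonoidAlgebra R
      (zeroPart (Nmon (fun j => a (i.succAbove j))) (a i))) := CA_equiv (CA_face a i) h2
  have h4 : AllComp n (AddMonoidAlgebra R (posPart (Nmon (fun j => a (i.succAbove j))) (a i))) := by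
    intro v hv
    refine hTM R L (Nmon (fun j => a (i.succAbove j))) (a i) (Fin n) (by simp; omega) v hv ?_ ?_
    · have h5 := h1 (fun k => incl R (posPart_le _ (a i)) (v k))
        (hv.map (incl R (posPart_le _ (a i))).toRingHom)
      exact h5.map (algebraMap _ _)
    · exact h3 _ (hv.map (retr R (zeroPart _ (a i)) (zeroPart_isFace _ (a i))).toRingHom)
  rw [CA_posPart] at h4
  exact h4

end GB
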