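import Pool.Agent.helper70.GB.SpecN

/-!
# Project gb, module FT (helper21): localizations of group rings of finite groups
-/

open Matrix Polynomial

namespace GB

universe u

theorem FT_finite (R T : Type u) [CommRing R] [AddCommGroup T] [Finite T] :
    Module.Finite R (AddMonoidAlgebra R T) := by
  infer_instance

theorem FT_dim (R A : Type u) [CommRing R] [CommRing A] [Algebra R A] [Algebra.IsIntegral R A] :
    ringKrullDim A ≤ ringKrullDim R := by
  refine Order.krullDim_le_of_strictMono (PrimeSpectrum.comap (algebraMap R A)) ?_
  intro I J hIJ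
  exact Ideal.IsIntegral.comap_lt_comap (I := I.asIdeal) (J := J.asIdeal) hIJ

theorem FT : FT_stmt.{u} := by
  intro n hn R T _ _ _ hR p _
  have h1 : Module.Finite R (AddMonoidAlgebra R T) := FT_finite R T
  have h2 := hR.noeth
  have h3 : IsNoetherianRing (AddMonoidAlgebra R T) := IsNoetherianRing.of_finite R _
  refine ⟨inferInstance, inferInstance, ?_, ?_⟩
  · rw [IsLocalization.AtPrime.ringKrullDim_eq_height p (Localization.AtPrime p)]
    exact (Ideal.height_le_ringKrullDim_of_isPrime).trans ((FT_dim R _).trans hR.dim)
  · have h4 := (hR.fact.map (algebraMap R (AddMonoidAlgebra R T))).map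
      (algebraMap (AddMonoidAlgebra R T) (Localization.AtPrime p))
    simpa using h4

end GB
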