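import Pool.Agent.helper68.GB.Spec
import Pool.Agent.helper27.BR.THB

/-!
# Row gb:TBZ (MP_baa4d7_al): `THZ` by blocks (adaptation of THB, helper27)
-/

set_option autoImplicit false

namespace Pool.Agent.GB

open Pool.Agent.helper58.DC Pool.Agent.DI Pool.Agent.GR Pool.Agent.OB Pool.Agent.DR Pool.Agent.FI Pool.Agent.FI3 Pool.Agent.FI4 Pool.Agent.LE Pool.Agent.BR

theorem TBZ (hREP : REP_stmt) (hEXB : EXB_stmt) (hEVF : EVF_stmt) : TBZ_stmt := by
  classical
  intro p M hS G _ _ D T x θ χ lo l ψ hψ u w hw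
  set K := Cz (⊤ : Subgroup G) u with hK
  obtain ⟨rfin, rrep, riff, -, -⟩ := hREP p M hS G K
  let _ : Fintype G := Fintype.ofFinite G
  let X : G → ℂ := fun t => (T.relIndex D : ℂ) * ciT M D T θ (t * u * t⁻¹) / Nat.card K * lx T l (t * u * t⁻¹)
  let et : G → G → ℂ := fun t => eS K (Bl M K (cjF t⁻¹ θ))
  have hX0 : ∀ t : G, t * u * t⁻¹ ∉ T → X t = 0 := by
    intro t ht
    show (T.relIndex D : ℂ) * ciT M D T θ (t * u * t⁻¹) / Nat.card K * lx T l (t * u * t⁻¹) = 0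
    unfold lx
    rw [dif_neg ht, mul_zero]
  -- the characters
  have hpD : IsPGroup p D := lo.rt.dfa.pgrp
  have key : ∀ t : G, t * u * t⁻¹ ∈ T → ∃ ψ' ∈ IrrOn K, SB M K (cjF t⁻¹ θ) ψ' := by
    intro t ht
    have huD : u ∈ cj t⁻¹ D := by
      rw [mem_cj, inv_inv]
      exact lo.tle ht
    have hcom : ∀ a ∈ cj t⁻¹ D, u * a = a * u := by
      intro a ha
      rw [mem_cj, inv_inv] at ha
      have h1 : (t * a * t⁻¹) * (t * u * t⁻¹) = (t * u * t⁻¹) * (t * a * t⁻¹) := Subgroup.mem_centralizer_iff.1 (lo.tcz ht) _ ha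
      calc u * a = t⁻¹ * ((t * u * t⁻¹) * (t * a * t⁻¹)) * t := by group
        _ = t⁻¹ * ((t * a * t⁻¹) * (t * u * t⁻¹)) * t := by rw [h1]
        _ = a * u := by group
    have hle : cj t⁻¹ D ≤ K := by
      intro a ha
      rw [hK, mem_Cz]
      exact ⟨Subgroup.mem_top a, hcom a ha⟩
    have hcz : cz (cj t⁻¹ D) ≤ K := by
      intro a ha
      rw [hK, mem_Cz]
      exact ⟨Subgroup.mem_top a, Subgroup.mem_centralizer_iff.1 ha u huD⟩
    have hφ : cjF t⁻¹ θ ∈ IrrOn (K ⊓ cz (cj t⁻¹ D)) := by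
      rw [inf_eq_right.2 hcz, cj_cz]
      exact IrrOn_funMap lo.rt.th t⁻¹
    exact hEXB p M hS G K (cj t⁻¹ D) (cj_pgroup t⁻¹ hpD) hle _ hφ
  have hmem : ∀ t : G, t * u * t⁻¹ ∈ T → et t ∈ BB M K := by
    intro t ht
    obtain ⟨ψ', h1, h2⟩ := key t ht
    refine ⟨ψ', h1, ?_⟩
    show eS K (Bl M K ψ') = eS K (Bl M K (cjF t⁻¹ θ))
    rw [THB_Bl h2]
  have hiff : ∀ t : G, t * u * t⁻¹ ∈ T → ∀ e ∈ BB M K, (SB M K (rep M K e) (cjF t⁻¹ θ) ↔ et t = e) := by
    intro t ht e he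
    obtain ⟨ψ', h1, h2⟩ := key t ht
    obtain ⟨h3, h4⟩ := rrep e he
    have h5 : et t = eS K (Bl M K ψ') := by
      show eS K (Bl M K (cjF t⁻¹ θ)) = eS K (Bl M K ψ')
      rw [THB_Bl h2]
    constructor
    · intro h
      rw [h5, ← h4]
      exact ((riff _ h3 _ h1).2 (h.trans h2)).symm
    · intro h
      have h6 : eS K (Bl M K (rep M K e)) = eS K (Bl M K ψ') := by
        rw [h4, ← h5, h]
      exact ((riff _ h3 _ h1).1 h6).trans h2.symm
  -- the left side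
  have hL : THZ M D T θ l ψ u w = ∑ t : G, X t * ev ψ (et t) (u * w) := by
    unfold THZ
    rw [← finsum_eq_sum_of_fintype]
    refine finsum_congr fun t => ?_
    rw [THB_tr27 hEVF hψ]
  -- the right side
  have hLam : ∀ e ∈ BB M K, LamZ M D T θ l u (rep M K e) = ∑ t : G, if et t = e then X t else 0 := by
    intro e he
    unfold LamZ
    rw [← finsum_eq_sum_of_fintype]
    refine finsum_congr fun t => ?_
    rw [finsum_eq_if]
    by_cases ht : t * u * t⁻¹ ∈ T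
    · by_cases h : SB M K (rep M K e) (cjF t⁻¹ θ)
      · have h' : t ∈ {t : G | SB M (Cz (⊤ : Subgroup G) u) (rep M K e) (cjF t⁻¹ θ)} := h
        rw [if_pos h', if_pos ((hiff t ht e he).1 h)]
      · have h' : t ∉ {t : G | SB M (Cz (⊤ : Subgroup G) u) (rep M K e) (cjF t⁻¹ θ)} := h
        rw [if_neg h', if_neg (fun h1 => h ((hiff t ht e he).2 h1))]
    · have h1 : (T.relIndex D : ℂ) * ciT M D T θ (t * u * t⁻¹) / Nat.card (Cz (⊤ : Subgroup G) u) * lx T l (t * u * t⁻¹) = 0 := hX0 t ht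
      rw [h1, hX0 t ht]
      simp
  rw [hL, finsum_mem_eq_finite_toFinset_sum _ rfin]
  have h1 : ∀ e ∈ rfin.toFinset, LamZ M D T θ l u (rep M K e) * ev ψ e (u * w) =
      ∑ t : G, if et t = e then X t * ev ψ (et t) (u * w) else 0 := by
    intro e he
    rw [hLam e (rfin.mem_toFinset.1 he), Finset.sum_mul]
    refine Finset.sum_congr rfl fun t _ => ?_
    by_cases h : et t = e
    · rw [if_pos h, if_pos h, h]
    · rw [if_neg h, if_neg h, zero_mul]
  rw [Finset.sum_congr rfl h1, Finset.sum_comm]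
  refine Finset.sum_congr rfl fun t _ => ?_
  by_cases ht : t * u * t⁻¹ ∈ T
  · rw [Finset.sum_ite_eq, if_pos (rfin.mem_toFinset.2 (hmem t ht))]
  · rw [hX0 t ht, zero_mul]
    symm
    refine Finset.sum_eq_zero fun e _ => ?_
    split_ifs <;> rfl

end Pool.Agent.GB
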